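import Pool.Agent.helper34.DT.Spec

/-!
# dt:BI, the implicit function theorem in a finite dimensional algebra
-/

namespace Pool.Agent.HC.DT

open Filter Topology

noncomputable section

theorem BI : BI_stmt := by
  intro A _ _ _ g J hJ hJg hbr hconj ε hε
  have hcomp : CompleteSpace A := FiniteDimensional.complete ℝ A
  -- the centraliser of `J` in `g`
  let h : Submodule ℝ A :=
    { carrier := {Z | Z ∈ g ∧ Z * J = J * Z}
      add_mem' := fun {a b} ha hb => ⟨g.add_mem ha.1 hb.1, by rw [add_mul, mul_add, ha.2, hb.2]⟩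
      zero_mem' := ⟨g.zero_mem, by simp⟩
      smul_mem' := fun c a ha => ⟨g.smul_mem c ha.1, by
        rw [smul_mul_assoc, mul_smul_comm, ha.2]⟩ }
  have hJh : J ∈ h := ⟨hJg, rfl⟩
  -- a linear projection to `g`
  obtain ⟨π₀, hπ₀⟩ := LinearMap.exists_leftInverse_of_injective g.subtype (by simp)
  let π : A →L[ℝ] g := LinearMap.toContinuousLinearMap π₀
  have hπ : ∀ x : g, π (x : A) = x := fun x => LinearMap.congr_fun hπ₀ x
  let E₁ : (g × h) →L[ℝ] A := g.subtypeL ∘L ContinuousLinearMap.fst ℝ g h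
  let E₂ : (g × h) →L[ℝ] A := h.subtypeL ∘L ContinuousLinearMap.snd ℝ g h
  let p₀ : g × h := (0, ⟨J, hJh⟩)
  have hE₁ : E₁ p₀ = 0 := rfl
  have hE₂ : E₂ p₀ = J := rfl
  have hexp1 : HasStrictFDerivAt (fun p : g × h => NormedSpace.exp (E₁ p)) E₁ p₀ := by
    have h1 : HasStrictFDerivAt (NormedSpace.exp : A → A) (1 : A →L[ℝ] A) (E₁ p₀) := by
      rw [hE₁]
      exact hasStrictFDerivAt_exp_zero
    have h2 := h1.comp p₀ E₁.hasStrictFDerivAt
    have h3 : (1 : A →L[ℝ] A) ∘SL E₁ = E₁ := ContinuousLinearMap.ext fun _ => rfl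
    rw [h3] at h2
    exact h2
  have hexp2 : HasStrictFDerivAt (fun p : g × h => NormedSpace.exp (-E₁ p)) (-E₁) p₀ := by
    have h1 : HasStrictFDerivAt (NormedSpace.exp : A → A) (1 : A →L[ℝ] A) ((-E₁) p₀) := by
      have : (-E₁) p₀ = 0 := by
        show -(E₁ p₀) = 0
        rw [hE₁, neg_zero]
      rw [this]
      exact hasStrictFDerivAt_exp_zero
    have h2 := h1.comp p₀ (-E₁).hasStrictFDerivAt
    have h3 : (1 : A →L[ℝ] A) ∘SL (-E₁) = -E₁ := ContinuousLinearMap.ext fun _ => rfl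
    rw [h3] at h2
    exact h2
  have hG := (hexp1.mul' E₂.hasStrictFDerivAt).mul' hexp2
  have hF := (π.hasStrictFDerivAt (x := _)).comp p₀ hG
  -- surjectivity
  have hsurj : ∀ U : g, ∃ p : g × h, (E₂ p : A) + (E₁ p * J - J * E₁ p) = U := by
    intro U
    obtain ⟨U, hU⟩ := U
    have hJUJ : J * U * J ∈ g := by
      have h1 := hbr J hJg _ (hbr J hJg U hU)
      have h2 : J * (J * U - U * J) - (J * U - U * J) * J = -(2 : ℝ) • U - (2 : ℝ) • (J * U * J) := by
        have e1 : J * (J * U - U * J) - (J * U - U * J) * J =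
            (J * J) * U - J * U * J - J * U * J + U * (J * J) := by noncomm_ring
        rw [e1, hJ, neg_mul, one_mul, mul_neg, mul_one, neg_smul, two_smul, two_smul]
        abel
      rw [h2] at h1
      have h3 : (2 : ℝ) • (J * U * J) ∈ g := by
        have h4 := g.sub_mem (g.smul_mem (-(2 : ℝ)) hU) h1
        rwa [sub_sub_cancel] at h4
      have h5 := g.smul_mem ((1 : ℝ) / 2) h3
      rwa [smul_smul, show (1 : ℝ) / 2 * 2 = 1 by norm_num, one_smul] at h5
    -- the two components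
    have hU2 : (1 / 2 : ℝ) • (U + J * U * J) ∈ g := g.smul_mem _ (g.add_mem hU hJUJ)
    have hU1 : (1 / 2 : ℝ) • (U - J * U * J) ∈ g := g.smul_mem _ (g.sub_mem hU hJUJ)
    have ec : (1 / 2 : ℝ) • (U - J * U * J) * J = J * ((1 / 2 : ℝ) • (U - J * U * J)) := by
      rw [smul_mul_assoc, mul_smul_comm]
      congr 1
      have e1 : (U - J * U * J) * J = U * J - J * U * (J * J) := by noncomm_ring
      have e2 : J * (U - J * U * J) = J * U - (J * J) * U * J := by noncomm_ring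
      rw [e1, e2, hJ]
      noncomm_ring
    have ea : (1 / 2 : ℝ) • (U + J * U * J) * J = -(J * ((1 / 2 : ℝ) • (U + J * U * J))) := by
      rw [smul_mul_assoc, mul_smul_comm, ← smul_neg]
      congr 1
      have e1 : (U + J * U * J) * J = U * J + J * U * (J * J) := by noncomm_ring
      have e2 : J * (U + J * U * J) = J * U + (J * J) * U * J := by noncomm_ring
      rw [e1, e2, hJ]
      noncomm_ring
    have hsum : U = (1 / 2 : ℝ) • (U - J * U * J) + (1 / 2 : ℝ) • (U + J * U * J) := by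
      rw [← smul_add, show U - J * U * J + (U + J * U * J) = (2 : ℝ) • U by
        rw [two_smul]; abel, smul_smul]
      norm_num
    generalize (1 / 2 : ℝ) • (U + J * U * J) = U₂ at *
    generalize (1 / 2 : ℝ) • (U - J * U * J) = U₁ at *
    have hY : (-(1 / 4) : ℝ) • (U₂ * J - J * U₂) ∈ g := g.smul_mem _ (hbr _ hU2 J hJg)
    have hYe : (-(1 / 4) : ℝ) • (U₂ * J - J * U₂) = (-(1 / 2) : ℝ) • (U₂ * J) := by
      have : J * U₂ = -(U₂ * J) := by rw [ea, neg_neg]
      rw [this, sub_neg_eq_add, ← two_smul ℝ (U₂ * J), smul_smul]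
      norm_num
    refine ⟨(⟨_, hY⟩, ⟨U₁, hU1, ec⟩), ?_⟩
    show U₁ + (((-(1 / 4) : ℝ) • (U₂ * J - J * U₂)) * J - J * ((-(1 / 4) : ℝ) • (U₂ * J - J * U₂))) = U
    rw [hYe, smul_mul_assoc, mul_smul_comm, ← smul_sub]
    have e3 : U₂ * J * J - J * (U₂ * J) = -(2 : ℝ) • U₂ := by
      have e4 : J * (U₂ * J) = (J * U₂) * J := by noncomm_ring
      have e5 : J * U₂ = -(U₂ * J) := by rw [ea, neg_neg]
      rw [e4, e5]
      have e6 : U₂ * J * J - -(U₂ * J) * J = U₂ * (J * J) + U₂ * (J * J) := by noncomm_ring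
      rw [e6, hJ, neg_smul, two_smul]
      noncomm_ring
    rw [e3, smul_smul, hsum]
    norm_num
  have hrange := fun (D : (g × h) →L[ℝ] g) (hD : ∀ p, D p = π ((E₂ p : A) + (E₁ p * J - J * E₁ p))) =>
    (show D.range = ⊤ from by
      rw [LinearMap.range_eq_top]
      intro U
      obtain ⟨p, hp⟩ := hsurj U
      refine ⟨p, ?_⟩
      show D p = U
      rw [hD, hp, hπ])
  have hmap := hF.map_nhds_eq_of_surj (hrange _ (by
    intro p
    simp only [ContinuousLinearMap.comp_apply]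
    congr 1
    simp [hE₁, hE₂]
    noncomm_ring))
  -- the neighbourhood
  have hN : {p : g × h | ‖NormedSpace.exp (-E₁ p) - 1‖ < ε ∧ ‖E₂ p - J‖ < ε} ∈ 𝓝 p₀ := by
    have h1 : Tendsto (fun p : g × h => ‖NormedSpace.exp (-E₁ p) - 1‖) (𝓝 p₀) (𝓝 0) := by
      have h2 := (hexp2.continuousAt.sub (continuousAt_const (y := (1 : A)))).norm
      have h3 : ‖NormedSpace.exp (-E₁ p₀) - (1 : A)‖ = 0 := by
        rw [hE₁, neg_zero, NormedSpace.exp_zero, sub_self, norm_zero]
      rw [← h3]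
      exact h2
    have h4 : Tendsto (fun p : g × h => ‖E₂ p - J‖) (𝓝 p₀) (𝓝 0) := by
      have h5 := (E₂.continuous.continuousAt (x := p₀)).sub (continuousAt_const (y := J))
      have h6 := h5.norm
      have h7 : ‖E₂ p₀ - J‖ = 0 := by rw [hE₂, sub_self, norm_zero]
      rw [← h7]
      exact h6
    exact (h1.eventually_lt_const hε).and (h4.eventually_lt_const hε)
  have himg := image_mem_map (m := fun p : g × h => π (NormedSpace.exp (E₁ p) * E₂ p *
    NormedSpace.exp (-E₁ p))) hN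
  have hmap' : map (fun p : g × h => π (NormedSpace.exp (E₁ p) * E₂ p *
    NormedSpace.exp (-E₁ p))) (𝓝 p₀) = 𝓝 (⟨J, hJg⟩ : g) := by
    have h1 : π (NormedSpace.exp (E₁ p₀) * E₂ p₀ * NormedSpace.exp (-E₁ p₀)) = ⟨J, hJg⟩ := by
      rw [hE₁, hE₂, neg_zero, NormedSpace.exp_zero, one_mul, mul_one]
      exact hπ ⟨J, hJg⟩
    rw [← h1]
    exact hmap
  rw [hmap', Metric.mem_nhds_iff] at himg
  obtain ⟨δ, hδ, hball⟩ := himg
  refine ⟨δ, hδ, fun X hX hXJ => ?_⟩
  obtain ⟨⟨⟨Y, hY⟩, ⟨Z, hZ⟩⟩, ⟨h1, h2⟩, h3⟩ := hball (show (⟨X, hX⟩ : g) ∈ Metric.ball ⟨J, hJg⟩ δ by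
    rw [Metric.mem_ball, Subtype.dist_eq, dist_eq_norm]
    exact hXJ)
  refine ⟨Y, hY, Z, hZ.1, hZ.2, h1, h2, ?_⟩
  have h4 : NormedSpace.exp Y * Z * NormedSpace.exp (-Y) ∈ g := hconj Y hY Z hZ.1
  have h5 : π (NormedSpace.exp Y * Z * NormedSpace.exp (-Y)) = ⟨X, hX⟩ := h3
  have h6 := hπ ⟨_, h4⟩
  rw [show ((⟨NormedSpace.exp Y * Z * NormedSpace.exp (-Y), h4⟩ : g) : A) =
    NormedSpace.exp Y * Z * NormedSpace.exp (-Y) from rfl, h5] at h6
  exact congrArg Subtype.val h6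

end

end Pool.Agent.HC.DT
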